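import Pool.Agent.Results.MP_081200_nt.FewDigitCubicCharacters
import Pool.Agent.N251.LF.DigitThin

/-!
# Square-root cancellation in short sums of cubic residue symbols near generic systems of linear forms

Let `v_i`, `i` in a countable set, be vectors in `ℝ^k`, `O(X^(τ + ε))` of them of norm at most `X` for every `ε > 0`: for
instance the vectors `(b_1^(n_1), …, b_k^(n_k))`, `b_j > 1`, for all `n_1, …, n_k`, with `τ = 0`, or `(1, n, …, n^D)` with
`τ = 1 / D`.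

**Theorem.** For every `δ > 0` and every integer `A ≥ 0` there is `c > 0` such that for every `κ > 0` with `κ A ≤ 1` and every
`θ < 1`: for all real matrices `α` with two rows and `k` columns outside a set of Hausdorff dimension at most
`2 (k - 1) + (2 - 2 κ A + τ) / (1 - θ)` and all `c'`, for all but finitely many `i`, ALL natural numbers `m_0`, `m_1` with
`|m_l - (α v_i)_l| ≤ c' ‖v_i‖^θ` have the following property: if the norm of `m_0 + m_1 ω` is not divisible by `3` and `ψ` is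
the cubic residue symbol of `m_0 + m_1 ω`, a Dirichlet character modulo the norm, then for all integers `X` with
`M^κ ≤ X ≤ M^c`, `M` the maximum of `m_0`, `m_1`, all residue classes `a` modulo an integer `k'` with `1 ≤ k' ≤ X ^ A` and all
real `t` with `|t| ≤ X ^ A` the sum `∑ ψ (n) n ^ (- i t)` over the integers `n ≡ a (mod k')` in any interval in `[1, X]` is at
most `X ^ (1 / 2 + δ)` in absolute value. The bound for the dimension is less than `2 k` if `τ + 2 θ < 2 κ A`.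

The exceptional pairs `(m_0, m_1)` up to `T` are at most `O(T ^ (2 - 2 κ A + ε))` (from the starting result
`FewDigitCubicCharacters` on the digits of `α`), and the set of the matrices with an exceptional pair in the window of `v_i` is
covered by small cubes (`Pool.Agent.N251.LF`). The starting result `CharactersInSquares` is the case `k = 1`.
-/

set_option autoImplicit false

open Finset

namespace Pool.Agent.Results.MP_081200_nt.GenericLinearForms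

open FewDigitCubicCharacters (Eis nm IsSymbol shortSum exceptions digit change)
open Pool.Agent.N251.LF (Fam Sq)

/-- The sum `∑ ψ (n) n ^ (- i t)` over the integers `n ≡ a (mod k)` with `M < n ≤ M'`. -/
noncomputable def progressionSum {q : ℕ} (ψ : DirichletCharacter ℂ q) (k a : ℕ) (t : ℝ) (M M' : ℕ) : ℂ :=
  ∑ n ∈ (Ioc M M').filter (fun n => n ≡ a [MOD k]), ψ (n : ZMod q) * Complex.exp (((-(t * Real.log n) : ℝ) : ℂ) * Complex.I)

/-- the cubic residue symbol of `m 0 + m 1 ω`, if the norm is not divisible by `3`, has small sums over progressions in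
intervals up to `X` for all `X` between the powers `κ` and `c` of the maximum of `m 0` and `m 1` -/
def SmallSums (δ κ c : ℝ) (A : ℕ) (m : Fin 2 → ℕ) : Prop :=
  ¬ (3 : ℤ) ∣ nm (⟨m 0, m 1⟩ : Eis) → ∀ ψ : DirichletCharacter ℂ (nm (⟨m 0, m 1⟩ : Eis)).natAbs, IsSymbol ⟨m 0, m 1⟩ ψ →
    ∀ X : ℕ, ((max (m 0) (m 1) : ℕ) : ℝ) ^ κ ≤ X → (X : ℝ) ≤ ((max (m 0) (m 1) : ℕ) : ℝ) ^ c → ∀ k a : ℕ, 1 ≤ k →
      k ≤ X ^ A → ∀ t : ℝ, |t| ≤ (X : ℝ) ^ A → ∀ M M' : ℕ, M' ≤ X →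
        ‖progressionSum ψ k a t M M'‖ ≤ (X : ℝ) ^ (1 / 2 + δ)

/-- the weights -/
noncomputable def wt (p : ℕ × ℕ) (n : ℕ) : ℂ := if n ≡ p.2 [MOD p.1] then 1 else 0

lemma wt_le (p : ℕ × ℕ) (n : ℕ) : ‖wt p n‖ ≤ 1 := by
  unfold wt
  split_ifs <;> simp

lemma sum_wt {q : ℕ} (ψ : DirichletCharacter ℂ q) (k a : ℕ) (t : ℝ) (M M' : ℕ) :
    progressionSum ψ k a t M M' = shortSum ψ (wt (k, a % k)) t M M' := by
  unfold progressionSum shortSum
  rw [sum_filter]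
  refine sum_congr rfl fun n _ => ?_
  have h1 : (n ≡ a % k [MOD k]) ↔ (n ≡ a [MOD k]) := by
    unfold Nat.ModEq
    rw [Nat.mod_mod]
  unfold wt
  simp only [h1]
  split_ifs <;> simp

lemma exc_spec (b : ℕ) (K s N : Fin 2 → ℕ) (f : Fin 2 → ℕ → ℕ) (E : Eis → Prop) :
    ∃ W : Finset (Fin 2 → Finset ℕ), W.card = exceptions b K s N f E ∧
      ∀ S ∈ Fintype.piFinset (fun l => powersetCard (s l) (range (K l))), S ∉ W →
        E ⟨change b (K 0) (N 0) (f 0) (S 0), change b (K 1) (N 1) (f 1) (S 1)⟩ := by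
  classical
  refine ⟨_, rfl, fun S hS hSW => ?_⟩
  by_contra h
  exact hSW (mem_filter.2 ⟨hS, h⟩)

lemma norm_two (m : Fin 2 → ℕ) : ‖(fun l => (m l : ℝ))‖ = ((max (m 0) (m 1) : ℕ) : ℝ) := by
  apply le_antisymm
  · refine (pi_norm_le_iff_of_nonneg (Nat.cast_nonneg _)).2 fun l => ?_
    rw [Real.norm_eq_abs, abs_of_nonneg (Nat.cast_nonneg _), Nat.cast_le]
    fin_cases l
    · exact le_max_left _ _
    · exact le_max_right _ _
  · rw [Nat.cast_max]
    refine max_le ?_ ?_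
    · have h := norm_le_pi_norm (fun l => (m l : ℝ)) 0
      rwa [Real.norm_eq_abs, abs_of_nonneg (Nat.cast_nonneg _)] at h
    · have h := norm_le_pi_norm (fun l => (m l : ℝ)) 1
      rwa [Real.norm_eq_abs, abs_of_nonneg (Nat.cast_nonneg _)] at h

/-- **Cubic residue symbols near generic systems of linear forms.** For `δ > 0` and `A ≥ 0` there is `c > 0` such that for every
`κ > 0` with `κ A ≤ 1`, every family `v` of vectors in `ℝ^k` of exponent `τ ≥ 0` and every `θ < 1`: for all real matrices `α`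
with two rows and `k` columns outside a set of Hausdorff dimension at most `2 (k - 1) + (2 - 2 κ A + τ) / (1 - θ)` and all
`c'`, for all but finitely many `i`, ALL pairs `m` of natural numbers with `|m_l - ∑ α_(l,j) v_(i,j)| ≤ c' ‖v_i‖^θ`, `l = 0, 1`,
satisfy `SmallSums δ κ c A m`. The vectors `(1, n, …, n^d)` are a family of exponent `1 / d`, the
`(b_1^(n_1), …, b_k^(n_k))` with `b_j > 1` one of exponent `0`, the `(n_1^(a_1), …, n_k^(a_k))` with `a_j > 0` one of exponent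
`∑ 1 / a_j`, and the `(u_1(n_1), …, u_k(n_k))` one of exponent `∑ τ_j`, if the sequences `u_j` have exponents `τ_j`. -/
theorem result :
    (∀ δ : ℝ, 0 < δ → ∀ A : ℕ, ∃ c : ℝ, 0 < c ∧ ∀ κ : ℝ, 0 < κ → κ * A ≤ 1 →
      ∀ (k : ℕ) (ι : Type) (v : ι → Fin k → ℝ) (τ θ : ℝ), Fam v τ → 0 ≤ τ → θ < 1 →
      ∃ E : Set (Fin 2 × Fin k → ℝ), dimH E ≤ ENNReal.ofReal (2 * ((k : ℝ) - 1) + (2 - 2 * κ * A + τ) / (1 - θ)) ∧
        ∀ α, α ∉ E → ∀ c' : ℝ, {i | ¬ ∀ m : Fin 2 → ℕ,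
          (∀ l, |(m l : ℝ) - ∑ j, α (l, j) * v i j| ≤ c' * ‖v i‖ ^ θ) → SmallSums δ κ c A m}.Finite) ∧
    (∀ d : ℕ, 1 ≤ d → Fam (fun (n : ℕ) (j : Fin (d + 1)) => (n : ℝ) ^ (j : ℕ)) (1 / d)) ∧
    (∀ (k : ℕ) (b : Fin k → ℝ), (∀ j, 1 < b j) → Fam (fun (n : Fin k → ℕ) (j : Fin k) => b j ^ n j) 0) ∧
    (∀ (k : ℕ) (a : Fin k → ℝ), (∀ j, 0 < a j) →
      Fam (fun (n : Fin k → ℕ) (j : Fin k) => (n j : ℝ) ^ a j) (∑ j, 1 / a j)) ∧
    ∀ (k : ℕ) (u : Fin k → ℕ → ℝ) (τ : Fin k → ℝ), (∀ j, Sq (u j) (τ j)) →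
      Fam (fun (n : Fin k → ℕ) (j : Fin k) => u j (n j)) (∑ j, τ j) := by
  classical
  refine ⟨fun δ hδ A => ?_, Pool.Agent.N251.LF.examples⟩
  obtain ⟨c, hc, y₀, h⟩ := FewDigitCubicCharacters.result 2 le_rfl δ hδ (2 * A)
  refine ⟨c / 4, by positivity, fun κ hκ hκA k ι v τ θ hv hτ hθ => ?_⟩
  have hΛ : ∀ x : ℕ, ((Icc 1 (x ^ A)) ×ˢ (range (x ^ A)) : Finset (ℕ × ℕ)).card ≤ x ^ (2 * A) := by
    intro x
    rw [card_product, Nat.card_Icc, card_range, two_mul, pow_add]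
    simp
  obtain ⟨E, h1, h2⟩ := Pool.Agent.N251.LF.tuple_digit (d := 2) (c := c) hc (max y₀ 1) (2 * A)
    (fun X m => ¬ (3 : ℤ) ∣ nm (⟨m 0, m 1⟩ : Eis) → ∀ ψ : DirichletCharacter ℂ (nm (⟨m 0, m 1⟩ : Eis)).natAbs,
      IsSymbol ⟨m 0, m 1⟩ ψ → ∀ p ∈ ((Icc 1 (X ^ A)) ×ˢ (range (X ^ A)) : Finset (ℕ × ℕ)), ∀ t : ℝ, |t| ≤ (X : ℝ) ^ (2 * A) →
        ∀ M M' : ℕ, M' ≤ X → ‖shortSum ψ (wt p) t M M'‖ ≤ (X : ℝ) ^ (1 / 2 + δ)) (by
      intro K r y hrK hy N hN f hf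
      have h3 := h K r y hrK ((le_max_left _ _).trans hy) N hN f hf (ℕ × ℕ) wt
        (fun x => (Icc 1 (x ^ A)) ×ˢ (range (x ^ A))) wt_le hΛ
      obtain ⟨W, hW1, hW2⟩ := exc_spec 2 K r N f (fun α => ¬ (3 : ℤ) ∣ nm α → ∀ ψ : DirichletCharacter ℂ (nm α).natAbs, IsSymbol α ψ →
        ∀ x : ℕ, y ≤ x → (∀ l, (x : ℝ) ≤ Real.exp (c * r l)) → ∀ i ∈ ((Icc 1 (x ^ A)) ×ˢ (range (x ^ A)) : Finset (ℕ × ℕ)),
          ∀ τ : ℝ, |τ| ≤ (x : ℝ) ^ (2 * A) → ∀ M M' : ℕ, M' ≤ x → ‖shortSum ψ (wt i) τ M M'‖ ≤ (x : ℝ) ^ (1 / 2 + δ))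
      rw [← hW1] at h3
      refine ⟨W, h3, fun S hS hSW x hyx hxr => ?_⟩
      exact fun h4 ψ hψ p hp t ht M M' hM => hW2 S hS hSW h4 ψ hψ x hyx hxr p hp t ht M M' hM)
    hκ (by push_cast; linarith) v hτ hθ hv
  refine ⟨E, h1.trans (le_of_eq ?_), fun α hα c' => (h2 α hα c').subset ?_⟩
  · push_cast
    congr 3
    ring
  intro i hi
  simp only [Set.mem_ofPred_eq] at hi ⊢
  rw [not_forall] at hi
  obtain ⟨m, hm⟩ := hi
  rw [Classical.not_imp] at hm
  refine ⟨m, fun hgood => hm.2 ?_, hm.1⟩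
  intro h3 ψ hψ X hX1 hX2 k' a hk hkX t ht M M' hM'
  rw [norm_two] at hgood
  rcases Nat.eq_zero_or_pos M' with h0 | h0
  · rw [h0]
    unfold progressionSum
    rw [Ioc_eq_empty (by omega)]
    simp only [filter_empty, sum_empty, norm_zero]
    positivity
  have hX0 : (1 : ℝ) ≤ X := by exact_mod_cast h0.trans_le hM'
  rw [sum_wt]
  refine hgood X hX1 hX2 h3 ψ hψ (k', a % k') ?_ t ?_ M M' hM'
  · exact mem_product.2 ⟨mem_Icc.2 ⟨hk, hkX⟩, mem_range.2 ((Nat.mod_lt _ hk).trans_le hkX)⟩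
  · exact ht.trans (pow_le_pow_right₀ hX0 (by omega))

end Pool.Agent.Results.MP_081200_nt.GenericLinearForms
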