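import Pool.Agent.N647.TS.MulT
import Pool.Agent.X22.CC2
import Pool.Agent.N54.ME.Conv

/-!
# Short sums of the cubic characters whose conductors are given by almost all real parameters along sequences of any growth

The cubic character is the cubic residue symbol of the Eisenstein integer `α = ⌊x_0(t)⌋ + ⌊x_1(t)⌋ ω`, where `x_0, x_1` are, for example,

* `x_l(t) = ξ_l g_l(t) + c_l(t)` for any real sequences `g_l` with `g_l(t + 1) - g_l(t) ≥ t ^ (ρ - 1)` (for instance `t`, `t ^ 2`,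
  `t ^ 2 + t`, `√t`, `2 ^ t`, `t !`, the primes) and any real sequences `c_l`, for almost all real `ξ_0, ξ_1`, or
* `x_l(t) = ξ_l ^ g_l(t) + c_l(t)` with strictly increasing integers `g_l(t)`, for almost all `ξ_0, ξ_1 > 1`,

and so for almost all members of all families of twice continuously differentiable functions whose derivatives are separated
(`Spread`). So equal and integral exponents are allowed, and the sequences can grow arbitrarily fast.

Method: a second moment argument over the parameters (after helper668's one-dimensional metric theorem) shows that for almost all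
parameters the pairs of the integer parts are uniformly distributed modulo all moduli up to a power of `N` with a power saving
(`Pool.Agent.N54.ME`); high moments of sums of multiplicative families of local functions over such families
(`Pool.Agent.N647.TS`, helper647); cubic reciprocity (`Pool.Agent.X22.CC2`).
-/

set_option autoImplicit false

namespace Pool.Agent.Results.MP_081200_nt.MetricSequences

open Finset Filter MeasureTheory

/-- The ring `ℤ[ω]` of the Eisenstein integers, `ω ^ 2 = - ω - 1`; `⟨u, v⟩` is `u + v ω`. -/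
abbrev Eis : Type := QuadraticAlgebra ℤ (-1) (-1)

/-- The primitive cube root of unity `ω` in `ℤ[ω]`. -/
def om : Eis := ⟨0, 1⟩

/-- The norm of `u + v ω`, namely `u ^ 2 - u v + v ^ 2`. -/
def nm (α : Eis) : ℤ := α.re ^ 2 - α.re * α.im + α.im ^ 2

/-- The complex cube root of unity `(- 1 + i √3) / 2`. -/
noncomputable def zeta : ℂ := ⟨-1 / 2, Real.sqrt 3 / 2⟩

open Classical in
/-- The cubic residue symbol of the rational integer `n` modulo the prime `π` of `ℤ[ω]` (of norm `p`): it is `0` if `π` divides `n`, and otherwise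
it is `1`, `zeta` or `zeta ^ 2` according as `n ^ ((p - 1) / 3)` is congruent to `1`, to `ω` or to `ω ^ 2` modulo `π`. -/
noncomputable def residue (π : Eis) (n : ℕ) : ℂ :=
  if π ∣ (n : Eis) then 0 else if π ∣ (n : Eis) ^ (((nm π).natAbs - 1) / 3) - 1 then 1
  else if π ∣ (n : Eis) ^ (((nm π).natAbs - 1) / 3) - om then zeta else zeta ^ 2

/-- The Dirichlet character `ψ` modulo the norm of `α` is the cubic residue symbol of `α`: for a decomposition of `α` into primes `π` (up to a unit), `ψ (n)` is the product of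
the cubic residue symbols of `n` modulo these primes for all `n` coprime to the norm of `α`. -/
def IsSymbol (α : Eis) (ψ : DirichletCharacter ℂ (nm α).natAbs) : Prop :=
  ∃ P : Multiset Eis, (∀ π ∈ P, Prime π) ∧ Associated P.prod α ∧
    ∀ n : ℕ, n.Coprime (nm α).natAbs → ψ (n : ZMod (nm α).natAbs) = (P.map (fun π => residue π n)).prod

/-- The sum `∑ w (n) ψ (n) n ^ (- i τ)` over the integers `n` with `M < n ≤ M'`. -/
noncomputable def shortSum {q : ℕ} (ψ : DirichletCharacter ℂ q) (w : ℕ → ℂ) (τ : ℝ) (M M' : ℕ) : ℂ :=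
  ∑ n ∈ Ioc M M', w n * ψ (n : ZMod q) * Complex.exp (((-(τ * Real.log n) : ℝ) : ℂ) * Complex.I)

/-- The property of `α`: if its norm is not divisible by `3`, then for the Dirichlet character `ψ` modulo the norm of `α` which is the
cubic residue symbol of `α`, all integers `x` with `y ≤ x ≤ X`, all functions `w i`, `i ∈ Λ x`, all real `τ` with `|τ| ≤ x ^ A` and all
`M < M' ≤ x` we have `|∑ w (n) ψ (n) n ^ (- i τ)| ≤ x ^ (1 / 2 + δ)`, where the sum runs over the integers `n` with `M < n ≤ M'`. -/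
def ShortSums (δ : ℝ) (A : ℕ) {κ : Type} (w : κ → ℕ → ℂ) (Λ : ℕ → Finset κ) (y : ℕ) (X : ℝ) (α : Eis) : Prop :=
  ¬ (3 : ℤ) ∣ nm α → ∀ ψ : DirichletCharacter ℂ (nm α).natAbs, IsSymbol α ψ →
    ∀ x : ℕ, y ≤ x → (x : ℝ) ≤ X → ∀ i ∈ Λ x, ∀ τ : ℝ, |τ| ≤ (x : ℝ) ^ A → ∀ M M' : ℕ, M' ≤ x →
      ‖shortSum ψ (w i) τ M M'‖ ≤ (x : ℝ) ^ (1 / 2 + δ)

/-- The derivatives of the consecutive functions `F t` are separated on `[u, v]` and their second derivatives increase. -/
def Spread (ρ u v : ℝ) (F : ℕ → ℝ → ℝ) : Prop :=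
  (∀ t, ContDiff ℝ 2 (F t)) ∧ ∃ t₀ : ℕ, ∀ t, t₀ ≤ t → ∀ x ∈ Set.Icc u v,
    (t : ℝ) ^ (ρ - 1) ≤ deriv (F (t + 1)) x - deriv (F t) x ∧
      deriv (deriv (F t)) x ≤ deriv (deriv (F (t + 1))) x

/-- The Eisenstein integer `z_0(t) + z_1(t) ω`. -/
def alpha (z : ℕ → Fin 2 → ℤ) (t : ℕ) : Eis := ⟨z t 0, z t 1⟩

open Classical in
/-- If `z_0(t), z_1(t) ≥ 0` for all large `t`, then there is `y₀` such that for all `y ≥ y₀`, all `N` and all sets `Λ x` of at most
`x ^ A` functions `w` with `|w (n)| ≤ 1` all the integers `t` in `(N, 2 N]` with at most `N / y ^ A` exceptions, and all the primes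
`t` in `(N, 2 N]` with the exception of at most a proportion `1 / y ^ A` of them, have the property `ShortSums` for `X = N ^ κ₀` and
the Eisenstein integer `z_0(t) + z_1(t) ω`. -/
def AlmostAll (δ : ℝ) (A : ℕ) (κ₀ : ℝ) (z : ℕ → Fin 2 → ℤ) : Prop :=
  (∀ᶠ t : ℕ in atTop, ∀ l, 0 ≤ z t l) → ∃ y₀ : ℕ, ∀ y N : ℕ, y₀ ≤ y →
    ∀ (κ : Type) (w : κ → ℕ → ℂ) (Λ : ℕ → Finset κ), (∀ i n, ‖w i n‖ ≤ 1) → (∀ x, (Λ x).card ≤ x ^ A) →
      (((Ioc N (2 * N)).filter fun t => ¬ ShortSums δ A w Λ y ((N : ℝ) ^ κ₀) (alpha z t)).card : ℝ) ≤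
        1 / (y : ℝ) ^ A * N ∧
      ((((Ioc N (2 * N)).filter Nat.Prime).filter fun t =>
        ¬ ShortSums δ A w Λ y ((N : ℝ) ^ κ₀) (alpha z t)).card : ℝ) ≤
        1 / (y : ℝ) ^ A * ((Ioc N (2 * N)).filter Nat.Prime).card

open Pool.Agent.X22.CC Pool.Agent.X22.MT
open Pool.Agent.Y692.QS (Ei nr ep star_re epz wC)
open Pool.Agent.Y715.T.Rec (cs nn)
open Pool.Agent.Y715.T.RecG (cs_spec cs_uniq)

lemma residue_eq {π : Eis} (hπ : Prime π) (h3 : ¬ π ∣ 3) (n : ℕ) : residue π n = loc π (n : Ei) := by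
  by_cases hd : π ∣ (n : Ei)
  · rw [loc_zero hd]
    unfold residue
    rw [if_pos hd]
  · rw [loc_ne hd]
    have h1 := cs_spec hπ h3 hd
    unfold residue
    rw [if_neg hd]
    have e : ((nm π).natAbs - 1) / 3 = nn π := rfl
    rw [e]
    have key : ∀ c : ZMod 3, c = 0 ∨ c = 1 ∨ c = 2 := by decide
    have e0 : (Pool.Agent.Y692.QS.w : Ei) = om := rfl
    rcases key (cs π (n : Ei)) with h | h | h
    · rw [h] at h1 ⊢
      have h2 : π ∣ (n : Eis) ^ nn π - 1 := by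
        have e1 : (Pool.Agent.Y692.QS.w : Ei) ^ (0 : ZMod 3).val = 1 := rfl
        rw [e1] at h1
        exact h1
      rw [if_pos h2]
      rfl
    · rw [h] at h1 ⊢
      have e1 : (Pool.Agent.Y692.QS.w : Ei) ^ (1 : ZMod 3).val = om := by decide
      rw [e1] at h1
      have h2 : ¬ π ∣ (n : Eis) ^ nn π - 1 := by
        intro h2
        have h4 := cs_uniq hπ h3 (c := 0) (d := 1) (by
          have e2 : (Pool.Agent.Y692.QS.w : Ei) ^ (0 : ZMod 3).val = 1 := rfl
          rw [e2]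
          exact h2) (by
          have e2 : (Pool.Agent.Y692.QS.w : Ei) ^ (1 : ZMod 3).val = om := by decide
          rw [e2]
          exact h1)
        exact absurd h4 (by decide)
      rw [if_neg h2, if_pos h1]
      have e2 : (1 : ZMod 3).val = 1 := rfl
      rw [e2, pow_one]
      rfl
    · rw [h] at h1 ⊢
      have h2 : ¬ π ∣ (n : Eis) ^ nn π - 1 := by
        intro h2
        have h4 := cs_uniq hπ h3 (c := 0) (d := 2) (by
          have e2 : (Pool.Agent.Y692.QS.w : Ei) ^ (0 : ZMod 3).val = 1 := rfl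
          rw [e2]
          exact h2) h1
        exact absurd h4 (by decide)
      have h2' : ¬ π ∣ (n : Eis) ^ nn π - om := by
        intro h2
        have h4 := cs_uniq hπ h3 (c := 1) (d := 2) (by
          have e2 : (Pool.Agent.Y692.QS.w : Ei) ^ (1 : ZMod 3).val = om := by decide
          rw [e2]
          exact h2) h1
        exact absurd h4 (by decide)
      rw [if_neg h2, if_neg h2']
      have e2 : (2 : ZMod 3).val = 2 := rfl
      rw [e2]
      rfl

/-- the product of the symbols vanishes at the integers not coprime to the norm -/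
lemma prod_zero (α : Ei) (P : Multiset Ei) (hP : ∀ π ∈ P, Prime π) (hPa : Associated P.prod α) (n : ℕ)
    (hn : ¬ n.Coprime (nr α).natAbs) : (P.map (fun π => loc π (n : Ei))).prod = 0 := by
  obtain ⟨p, hp, hpn, hpα⟩ := Nat.Prime.not_coprime_iff_dvd.1 hn
  have hpZ : Prime (p : ℤ) := Nat.prime_iff_prime_int.1 hp
  have h1 : (p : ℤ) ∣ nr P.prod := by
    have h2 : nr P.prod = nr α := by
      obtain ⟨u, hu⟩ := hPa
      rw [← hu, Pool.Agent.Y692.QS.nr_mul, Pool.Agent.Y692.QS.isUnit_iff.1 u.isUnit, mul_one]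
    rw [h2]
    exact (Int.natCast_dvd).2 hpα
  have h2 : ∀ s : Multiset Ei, (p : ℤ) ∣ nr s.prod → ∃ π ∈ s, (p : ℤ) ∣ nr π := by
    intro s
    induction s using Multiset.induction_on with
    | empty =>
      intro h
      exfalso
      rw [Multiset.prod_zero, Pool.Agent.Y692.QS.nr_one] at h
      exact hpZ.not_isUnit (isUnit_of_dvd_one h)
    | cons a s ih =>
      intro h
      rw [Multiset.prod_cons, Pool.Agent.Y692.QS.nr_mul] at h
      rcases hpZ.dvd_or_dvd h with h | h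
      · exact ⟨a, Multiset.mem_cons_self a s, h⟩
      · obtain ⟨π, hπ, h'⟩ := ih h
        exact ⟨π, Multiset.mem_cons_of_mem hπ, h'⟩
  obtain ⟨π, hπ, hpπ⟩ := h2 P h1
  obtain ⟨l, hl, hπl, hc⟩ := Pool.Agent.Y715.T.Rec.exists_p (hP π hπ)
  have hpl : p = l := by
    have h3 : (p : ℤ) ∣ l := by
      rcases hc with h | h
      · rw [h] at hpπ
        exact hpπ
      · rw [h] at hpπ
        exact hpZ.dvd_of_dvd_pow hpπ
    exact (Nat.prime_dvd_prime_iff_eq hp hl).1 (by exact_mod_cast h3)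
  have hπn : π ∣ (n : Ei) := by
    refine hπl.trans ?_
    rw [← hpl]
    exact_mod_cast (Nat.cast_dvd_cast hpn : ((p : ℕ) : Ei) ∣ (n : Ei))
  apply Multiset.prod_eq_zero
  rw [Multiset.mem_map]
  exact ⟨π, hπ, loc_zero hπn⟩

theorem core (κ₁ : ℝ) (hκ₁ : 0 < κ₁) (δ : ℝ) (hδ : 0 < δ) (A : ℕ) :
    ∃ κ₀ : ℝ, 0 < κ₀ ∧ ∀ z : ℕ → Fin 2 → ℤ, Pool.Agent.N54.ME.WS z κ₁ → AlmostAll δ A κ₀ z := by
  classical
  have h3L : 3 ∣ 3 := dvd_rfl
  obtain ⟨M₀, y₁, hM⟩ := Pool.Agent.N647.TS.mt_law2W 2 3 (by norm_num) δ hδ A (A + 4) A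
  obtain ⟨κ₀, hκ₀, h₂⟩ := Pool.Agent.N54.ME.ws_conv (d := 2) hκ₁ M₀
  refine ⟨κ₀, hκ₀, fun z hz hpos => ?_⟩
  obtain ⟨y₂, h₂⟩ := h₂ z (fun t l => (z t l).toNat) hz (hpos.mono fun t ht l => (Int.toNat_of_nonneg (ht l)).symm)
  obtain ⟨t₀, ht₀⟩ := eventually_atTop.1 hpos
  have h : ∀ y N : ℕ, y₁ + y₂ ≤ y → ∀ (κ : Type) (Λ : ℕ → Finset κ), (∀ x, y ≤ x → (Λ x).card ≤ x ^ (A + 4)) →
      ∀ (F : ℕ → κ → ℕ → (Fin 2 → ℕ) → ℂ), (∀ x, y ≤ x → ∀ l ∈ Λ x, Fam 2 3 x ((x : ℝ) ^ (δ / 16)) (F x l)) →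
      ∀ (v w : ℕ → κ → ℕ → ℂ), (∀ x l n, ‖v x l n‖ ≤ 1) → (∀ x l n, ‖w x l n‖ ≤ 1) →
      ∀ E : (Fin 2 → ℕ) → Prop,
      (∀ m, (∀ x : ℕ, y ≤ x → (x : ℝ) ≤ (N : ℝ) ^ κ₀ → ∀ l ∈ Λ x, ∀ τ : ℝ, |τ| ≤ (x : ℝ) ^ A → ∀ χ : ℕ → ℂ,
        (∀ n, ‖χ n‖ ≤ 1) → (∀ n n' : ℕ, 1 ≤ n → 1 ≤ n' → χ (n * n') = χ n * χ n') →
        (∀ n ∈ nn 3 x, χ n = w x l n * F x l n m) → ∀ M M' : ℕ, M' ≤ x →
        ‖∑ n ∈ Ioc M M', v x l n * χ n * Pool.Agent.X22.ND.hp τ n‖ ≤ (x : ℝ) ^ (1 / 2 + δ)) → E m) →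
      (((Ioc N (2 * N)).filter fun t => ¬ E (fun l => (z t l).toNat)).card : ℝ) ≤ 1 / (y : ℝ) ^ A * N ∧
      ((((Ioc N (2 * N)).filter Nat.Prime).filter fun t => ¬ E (fun l => (z t l).toNat)).card : ℝ) ≤
        1 / (y : ℝ) ^ A * ((Ioc N (2 * N)).filter Nat.Prime).card := by
    intro y N hy κ Λ hΛ F hF v w hv hw E hE
    exact h₂ y N A (by omega) _ (fun S u H hW E' hE' => hM S u H y hW (by omega) κ Λ hΛ F hF v w hv hw E' hE') E hE
  obtain ⟨y₃, hy₃⟩ := exists_nat_gt ((t₀ : ℝ) ^ κ₀)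
  refine ⟨y₁ + y₂ + y₃ + 3, fun y N hy κ w Λ hw hΛ => ?_⟩
  by_cases hN : t₀ ≤ N
  swap
  · have hall : ∀ t, ShortSums δ A w Λ y ((N : ℝ) ^ κ₀) (alpha z t) := by
      intro t _ ψ _ x hyx hxX
      exfalso
      have h2 : (N : ℝ) ^ κ₀ ≤ (t₀ : ℝ) ^ κ₀ := by
        apply Real.rpow_le_rpow (Nat.cast_nonneg _) _ hκ₀.le
        exact_mod_cast (by omega : N ≤ t₀)
      have h3 : (y₃ : ℝ) ≤ x := by exact_mod_cast (by omega : y₃ ≤ x)
      linarith
    constructor
    · rw [Finset.filter_false_of_mem (fun t _ => not_not.2 (hall t)), card_empty, Nat.cast_zero]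
      positivity
    · rw [Finset.filter_false_of_mem (fun t _ => not_not.2 (hall t)), card_empty, Nat.cast_zero]
      positivity
  have halpha : ∀ t ∈ Ioc N (2 * N), alpha z t = toE (fun l => (z t l).toNat) := by
    intro t ht
    rw [mem_Ioc] at ht
    have h1 := ht₀ t (by omega)
    unfold alpha toE
    rw [Int.toNat_of_nonneg (h1 0), Int.toNat_of_nonneg (h1 1)]
  have hfil : ((Ioc N (2 * N)).filter fun t => ¬ ShortSums δ A w Λ y ((N : ℝ) ^ κ₀) (alpha z t)) =
      (Ioc N (2 * N)).filter fun t => ¬ ShortSums δ A w Λ y ((N : ℝ) ^ κ₀) (toE (fun l => (z t l).toNat)) :=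
    Finset.filter_congr fun t ht => by rw [halpha t ht]
  have hfil2 : (((Ioc N (2 * N)).filter Nat.Prime).filter fun t =>
      ¬ ShortSums δ A w Λ y ((N : ℝ) ^ κ₀) (alpha z t)) = ((Ioc N (2 * N)).filter Nat.Prime).filter fun t =>
        ¬ ShortSums δ A w Λ y ((N : ℝ) ^ κ₀) (toE (fun l => (z t l).toNat)) :=
    Finset.filter_congr fun t ht => by rw [halpha t (mem_of_mem_filter _ ht)]
  rw [hfil, hfil2]
  refine h y N (by omega) (κ × (ZMod 3 × ZMod 3)) (fun x => (Λ x) ×ˢ univ) ?_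
    (fun x q n m => FF n (toE m)) ?_ (fun x q n => w q.1 n) (fun x q n => FF n (star (epz q.2.1 q.2.2))) (fun x q n => hw q.1 n) (fun x q n => FF_norm _ _)
    (fun m => ShortSums δ A w Λ y ((N : ℝ) ^ κ₀) (toE m)) ?_
  · intro x hx
    rw [card_product]
    have e1 : (univ : Finset (ZMod 3 × ZMod 3)).card = 9 := by decide
    rw [e1, pow_add]
    apply Nat.mul_le_mul (hΛ x)
    calc 9 ≤ 3 ^ 4 := by norm_num
      _ ≤ x ^ 4 := Nat.pow_le_pow_left (by omega) 4
  · intro x hx q _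
    apply (fam _ x h3L).mono
    exact Real.one_le_rpow (by exact_mod_cast (by omega : 1 ≤ x)) (by positivity)
  · intro m hm h3 ψ hψ x hyx hxr i hi τ hτ M M' hM'
    obtain ⟨P, hP, hPa, hPψ⟩ := hψ
    have hP3 : ∀ π ∈ P, ¬ π ∣ 3 := by
      intro π hπ
      refine not_three (fun h => h3 (h.trans (nr_dvd ?_))) (hP π hπ)
      exact (Multiset.dvd_prod hπ).trans hPa.dvd
    obtain ⟨χ, hχ⟩ : ∃ χ : ℕ → ℂ, χ = fun (n : ℕ) => (P.map (fun π => loc π (n : Ei))).prod := ⟨_, rfl⟩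
    have hχψ : ∀ n : ℕ, ψ (n : ZMod (nm (toE m)).natAbs) = χ n := by
      intro n
      rw [hχ]
      show ψ (n : ZMod (nm (toE m)).natAbs) = (P.map (fun π => loc π (n : Ei))).prod
      by_cases hn : n.Coprime (nm (toE m)).natAbs
      · rw [hPψ n hn]
        congr 1
        apply Multiset.map_congr rfl
        intro π hπ
        exact residue_eq (hP π hπ) (hP3 π hπ) n
      · rw [prod_zero (toE m) P hP hPa n hn]
        apply MulChar.map_nonunit
        rw [ZMod.isUnit_iff_coprime]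
        exact hn
    have h5 := hm x hyx hxr (i, ((toE m).re : ZMod 3), ((toE m).im : ZMod 3)) (mem_product.2 ⟨hi, mem_univ _⟩) τ hτ χ ?_ ?_ ?_ M M' hM'
    · unfold shortSum
      have e1 : ∑ n ∈ Ioc M M', w i n * ψ (n : ZMod (nm (toE m)).natAbs) * Complex.exp (((-(τ * Real.log n) : ℝ) : ℂ) * Complex.I) =
          ∑ n ∈ Ioc M M', w i n * χ n * Pool.Agent.X22.ND.hp τ n := by
        apply sum_congr rfl
        intro n _
        rw [hχψ n]
        rfl
      rw [e1]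
      exact h5
    · intro n
      rw [← hχψ n]
      exact DirichletCharacter.norm_le_one ψ _
    · intro n n' _ _
      rw [← hχψ, ← hχψ, ← hχψ, Nat.cast_mul, map_mul]
    · intro n hn
      rw [mem_nn] at hn
      have hn3 : ¬ 3 ∣ n := fun h => Nat.not_coprime_of_dvd_of_dvd (by norm_num : 1 < 3) h h3L hn.2
      rw [hχ]
      exact recip (by omega) hn3 (toE m) h3 P hP hPa

/-- **Short sums of cubic characters for almost all parameters.** Let `0 < ρ ≤ 1`, an integer `A ≥ 0` and `δ > 0` be given. There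
is `κ₀ > 0` such that the property `AlmostAll` holds for almost all members of the following families: (1) the integer parts of
`F_l(t) (ξ_l)` for all functions with separated derivatives, (2) the integer parts of `ξ_l g_l(t) + c_l(t)` for all real sequences
`g_l` with `g_l(t + 1) - g_l(t) ≥ t ^ (ρ - 1)` for large `t` and all real sequences `c_l`, (3) the integer parts of
`ξ_l ^ g_l(t) + c_l(t)`, `ξ_l > 1`, for all strictly increasing sequences `g_l` of natural numbers and all real sequences `c_l`.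

`AlmostAll` is: there is `y₀` such that for all `y ≥ y₀` and all `N` and for any sets `Λ x` of at most `x ^ A` functions `w` on the
integers with `|w (n)| ≤ 1` all but at most `N / y ^ A` of the integers `t` in `(N, 2 N]`, and all but a proportion `1 / y ^ A` of the
primes `t` in `(N, 2 N]`, have the following property: if the norm of the Eisenstein integer `α = z_0(t) + z_1(t) ω` is not divisible by `3`, then for the Dirichlet character `ψ` modulo the norm of `α` which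
is the cubic residue symbol of `α`, all integers `x` with `y ≤ x ≤ N ^ κ₀`, all `w` from `Λ x`, all real `τ` with `|τ| ≤ x ^ A` and all
`M < M' ≤ x` we have `|∑ w (n) ψ (n) n ^ (- i τ)| ≤ x ^ (1 / 2 + δ)`, where the sum runs over the integers `n` with `M < n ≤ M'`. -/
theorem result (ρ : ℝ) (hρ : 0 < ρ) (hρ1 : ρ ≤ 1) (δ : ℝ) (hδ : 0 < δ) (A : ℕ) :
    ∃ κ₀ : ℝ, 0 < κ₀ ∧
    (∀ (u v : Fin 2 → ℝ) (F : Fin 2 → ℕ → ℝ → ℝ), (∀ l, Spread ρ (u l) (v l) (F l)) →
      ∀ᵐ ξ : Fin 2 → ℝ, (∀ l, ξ l ∈ Set.Ioc (u l) (v l)) →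
        AlmostAll δ A κ₀ (fun t l => ⌊F l t (ξ l)⌋)) ∧
    (∀ g c : Fin 2 → ℕ → ℝ, (∀ l, ∀ᶠ t : ℕ in atTop, (t : ℝ) ^ (ρ - 1) ≤ g l (t + 1) - g l t) →
      ∀ᵐ ξ : Fin 2 → ℝ, AlmostAll δ A κ₀ (fun t l => ⌊ξ l * g l t + c l t⌋)) ∧
    (∀ (g : Fin 2 → ℕ → ℕ) (c : Fin 2 → ℕ → ℝ), (∀ l, StrictMono (g l)) →
      ∀ᵐ ξ : Fin 2 → ℝ, (∀ l, 1 < ξ l) → AlmostAll δ A κ₀ (fun t l => ⌊ξ l ^ g l t + c l t⌋)) := by
  obtain ⟨κ₀, hκ₀, h⟩ := core _ (Pool.Agent.N54.ME.kap_pos hρ (Fintype.card (Fin 2))) δ hδ A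
  exact ⟨κ₀, hκ₀, Pool.Agent.N54.ME.three hρ hρ1 (AlmostAll δ A κ₀) h⟩

end Pool.Agent.Results.MP_081200_nt.MetricSequences
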