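import Pool.Agent.N384.VF.Mt
import Pool.Agent.N384.VF.Ex
import Pool.Agent.X22.CC2

/-!
# MP_081200_nt: short sums of the cubic characters whose conductors are in families of pairs of residues

The cubic character is the cubic residue symbol of the Eisenstein integer `α = (c + y) + (c' + y') ω`, where `(y, y')` runs
through a family of pairs of residues modulo `q`.

From Mathlib: `ZMod.stdAddChar`: the additive character `j ↦ exp (2 π i j / q)` of the integers modulo `q`; `ZMod.val`: the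
least residue; `Fintype.piFinset`: the product of finite sets.

Proof. A family of vectors of residues modulo `q` with small Fourier coefficients is uniformly distributed
in the residue classes modulo all integers up to a power of `Z` (`N384/VF`: completion in each coordinate). High moments of sums of multiplicative families of local
functions over such families (helper647, `Pool.Agent.N647.TS`); cubic reciprocity (`Pool.Agent.X22.CC2`, starting library).
Examples: products, the lemma of Ajtai, Iwaniec, Komlos, Pintz and Szemeredi on quotients by small primes, the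
Stepanov type lemma of Heath-Brown and Konyagin for subgroups (library `H435R3.HBK`, `N825.FC`), and Weyl sums without
losses (library `H373R2.NB`).
-/

set_option autoImplicit false

namespace Pool.Agent.Results.MP_081200_nt.ResidueVectors

open Finset

/-- The Fourier coefficients of the vectors of residues `y i`, `i ∈ s`, modulo `q` at the nonzero frequencies are at most
`η` times the number of the vectors: `|∑ i ∈ s, e(h·y_i / q)| ≤ η |s|` for all vectors `h ≠ 0` modulo `q`. -/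
def Flat {τ ι : Type} [Fintype ι] (q : ℕ) [NeZero q] (η : ℝ) (s : Finset τ) (y : τ → ι → ZMod q) : Prop :=
  ∀ h : ι → ZMod q, h ≠ 0 → ‖∑ i ∈ s, (ZMod.stdAddChar (∑ j, h j * y i j) : ℂ)‖ ≤ η * s.card

/-- The same for residues (vectors with one coordinate). -/
def Flat1 {τ : Type} (q : ℕ) [NeZero q] (η : ℝ) (s : Finset τ) (y : τ → ZMod q) : Prop :=
  ∀ h : ZMod q, h ≠ 0 → ‖∑ i ∈ s, (ZMod.stdAddChar (h * y i) : ℂ)‖ ≤ η * s.card

/-- `Z ≤ q`, and the Fourier coefficients at the nonzero frequencies are at most `|s| / (Z (42 + 3 log q) ^ r)`, where `r` is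
the number of the coordinates. -/
def Small {τ ι : Type} [Fintype ι] (q : ℕ) [NeZero q] (Z : ℝ) (s : Finset τ) (y : τ → ι → ZMod q) : Prop :=
  Z ≤ q ∧ Flat q (1 / (Z * (42 + 3 * Real.log q) ^ Fintype.card ι)) s y

/-- The ring `ℤ[ω]` of the Eisenstein integers, `ω ^ 2 = - ω - 1`; `⟨u, v⟩` is `u + v ω`. -/
abbrev Eis : Type := QuadraticAlgebra ℤ (-1) (-1)

/-- The primitive cube root of unity `ω` in `ℤ[ω]`. -/
def om : Eis := ⟨0, 1⟩

/-- The norm of `u + v ω`, namely `u ^ 2 - u v + v ^ 2`. -/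
def nm (α : Eis) : ℤ := α.re ^ 2 - α.re * α.im + α.im ^ 2

/-- The complex cube root of unity `(- 1 + i √3) / 2`. -/
noncomputable def zeta : ℂ := ⟨-1 / 2, Real.sqrt 3 / 2⟩

open Classical in
/-- The cubic residue symbol of the rational integer `n` modulo the prime `π` of `ℤ[ω]` (of norm `p`): it is `0` if `π` divides `n`, and otherwise
it is `1`, `zeta` or `zeta ^ 2` according as `n ^ ((p - 1) / 3)` is congruent to `1`, to `ω` or to `ω ^ 2` modulo `π`. -/
noncomputable def residue (π : Eis) (n : ℕ) : ℂ :=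
  if π ∣ (n : Eis) then 0 else if π ∣ (n : Eis) ^ (((nm π).natAbs - 1) / 3) - 1 then 1
  else if π ∣ (n : Eis) ^ (((nm π).natAbs - 1) / 3) - om then zeta else zeta ^ 2

/-- The Dirichlet character `ψ` modulo the norm of `α` is the cubic residue symbol of `α`: for a decomposition of `α` into primes `π` (up to a unit), `ψ (n)` is the product of
the cubic residue symbols of `n` modulo these primes for all `n` coprime to the norm of `α`. -/
def IsSymbol (α : Eis) (ψ : DirichletCharacter ℂ (nm α).natAbs) : Prop :=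
  ∃ P : Multiset Eis, (∀ π ∈ P, Prime π) ∧ Associated P.prod α ∧
    ∀ n : ℕ, n.Coprime (nm α).natAbs → ψ (n : ZMod (nm α).natAbs) = (P.map (fun π => residue π n)).prod

/-- The sum `∑ w (n) ψ (n) n ^ (- i τ)` over the integers `n` with `M < n ≤ M'`. -/
noncomputable def shortSum {q : ℕ} (ψ : DirichletCharacter ℂ q) (w : ℕ → ℂ) (τ : ℝ) (M M' : ℕ) : ℂ :=
  ∑ n ∈ Ioc M M', w n * ψ (n : ZMod q) * Complex.exp (((-(τ * Real.log n) : ℝ) : ℂ) * Complex.I)

/-- The Eisenstein integer `(c₀ 0 + y_i 0) + (c₀ 1 + y_i 1) ω`, with the least residues `0 ≤ y_i < q`. -/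
def alpha {τ : Type} {q : ℕ} (y : τ → Fin 2 → ZMod q) (c₀ : Fin 2 → ℕ) (i : τ) : Eis :=
  ⟨((c₀ 0 + (y i 0).val : ℕ) : ℤ), ((c₀ 1 + (y i 1).val : ℕ) : ℤ)⟩

/-- The property of `α`: if its norm is not divisible by `3`, then for the Dirichlet character `ψ` modulo the norm of `α` which is the
cubic residue symbol of `α`, all integers `x` with `y ≤ x ≤ X`, all functions `w i`, `i ∈ Λ x`, all real `τ` with `|τ| ≤ x ^ A` and all
`M < M' ≤ x` we have `|∑ w (n) ψ (n) n ^ (- i τ)| ≤ x ^ (1 / 2 + δ)`, where the sum runs over the integers `n` with `M < n ≤ M'`. -/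
def ShortSums (δ : ℝ) (A : ℕ) {κ : Type} (w : κ → ℕ → ℂ) (Λ : ℕ → Finset κ) (y : ℕ) (X : ℝ) (α : Eis) : Prop :=
  ¬ (3 : ℤ) ∣ nm α → ∀ ψ : DirichletCharacter ℂ (nm α).natAbs, IsSymbol α ψ →
    ∀ x : ℕ, y ≤ x → (x : ℝ) ≤ X → ∀ i ∈ Λ x, ∀ τ : ℝ, |τ| ≤ (x : ℝ) ^ A → ∀ M M' : ℕ, M' ≤ x →
      ‖shortSum ψ (w i) τ M M'‖ ≤ (x : ℝ) ^ (1 / 2 + δ)

open Pool.Agent.X22.CC Pool.Agent.X22.MT
open Pool.Agent.Y692.QS (Ei nr ep star_re epz wC)
open Pool.Agent.Y715.T.Rec (cs nn)
open Pool.Agent.Y715.T.RecG (cs_spec cs_uniq)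

lemma residue_eq {π : Eis} (hπ : Prime π) (h3 : ¬ π ∣ 3) (n : ℕ) : residue π n = loc π (n : Ei) := by
  by_cases hd : π ∣ (n : Ei)
  · rw [loc_zero hd]
    unfold residue
    rw [if_pos hd]
  · rw [loc_ne hd]
    have h1 := cs_spec hπ h3 hd
    unfold residue
    rw [if_neg hd]
    have e : ((nm π).natAbs - 1) / 3 = nn π := rfl
    rw [e]
    have key : ∀ c : ZMod 3, c = 0 ∨ c = 1 ∨ c = 2 := by decide
    have e0 : (Pool.Agent.Y692.QS.w : Ei) = om := rfl
    rcases key (cs π (n : Ei)) with h | h | h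
    · rw [h] at h1 ⊢
      have h2 : π ∣ (n : Eis) ^ nn π - 1 := by
        have e1 : (Pool.Agent.Y692.QS.w : Ei) ^ (0 : ZMod 3).val = 1 := rfl
        rw [e1] at h1
        exact h1
      rw [if_pos h2]
      rfl
    · rw [h] at h1 ⊢
      have e1 : (Pool.Agent.Y692.QS.w : Ei) ^ (1 : ZMod 3).val = om := by decide
      rw [e1] at h1
      have h2 : ¬ π ∣ (n : Eis) ^ nn π - 1 := by
        intro h2
        have h4 := cs_uniq hπ h3 (c := 0) (d := 1) (by
          have e2 : (Pool.Agent.Y692.QS.w : Ei) ^ (0 : ZMod 3).val = 1 := rfl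
          rw [e2]
          exact h2) (by
          have e2 : (Pool.Agent.Y692.QS.w : Ei) ^ (1 : ZMod 3).val = om := by decide
          rw [e2]
          exact h1)
        exact absurd h4 (by decide)
      rw [if_neg h2, if_pos h1]
      have e2 : (1 : ZMod 3).val = 1 := rfl
      rw [e2, pow_one]
      rfl
    · rw [h] at h1 ⊢
      have h2 : ¬ π ∣ (n : Eis) ^ nn π - 1 := by
        intro h2
        have h4 := cs_uniq hπ h3 (c := 0) (d := 2) (by
          have e2 : (Pool.Agent.Y692.QS.w : Ei) ^ (0 : ZMod 3).val = 1 := rfl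
          rw [e2]
          exact h2) h1
        exact absurd h4 (by decide)
      have h2' : ¬ π ∣ (n : Eis) ^ nn π - om := by
        intro h2
        have h4 := cs_uniq hπ h3 (c := 1) (d := 2) (by
          have e2 : (Pool.Agent.Y692.QS.w : Ei) ^ (1 : ZMod 3).val = om := by decide
          rw [e2]
          exact h2) h1
        exact absurd h4 (by decide)
      rw [if_neg h2, if_neg h2']
      have e2 : (2 : ZMod 3).val = 2 := rfl
      rw [e2]
      rfl

/-- the product of the symbols vanishes at the integers not coprime to the norm -/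
lemma prod_zero (α : Ei) (P : Multiset Ei) (hP : ∀ π ∈ P, Prime π) (hPa : Associated P.prod α) (n : ℕ)
    (hn : ¬ n.Coprime (nr α).natAbs) : (P.map (fun π => loc π (n : Ei))).prod = 0 := by
  obtain ⟨p, hp, hpn, hpα⟩ := Nat.Prime.not_coprime_iff_dvd.1 hn
  have hpZ : Prime (p : ℤ) := Nat.prime_iff_prime_int.1 hp
  have h1 : (p : ℤ) ∣ nr P.prod := by
    have h2 : nr P.prod = nr α := by
      obtain ⟨u, hu⟩ := hPa
      rw [← hu, Pool.Agent.Y692.QS.nr_mul, Pool.Agent.Y692.QS.isUnit_iff.1 u.isUnit, mul_one]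
    rw [h2]
    exact (Int.natCast_dvd).2 hpα
  have h2 : ∀ s : Multiset Ei, (p : ℤ) ∣ nr s.prod → ∃ π ∈ s, (p : ℤ) ∣ nr π := by
    intro s
    induction s using Multiset.induction_on with
    | empty =>
      intro h
      exfalso
      rw [Multiset.prod_zero, Pool.Agent.Y692.QS.nr_one] at h
      exact hpZ.not_isUnit (isUnit_of_dvd_one h)
    | cons a s ih =>
      intro h
      rw [Multiset.prod_cons, Pool.Agent.Y692.QS.nr_mul] at h
      rcases hpZ.dvd_or_dvd h with h | h
      · exact ⟨a, Multiset.mem_cons_self a s, h⟩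
      · obtain ⟨π, hπ, h'⟩ := ih h
        exact ⟨π, Multiset.mem_cons_of_mem hπ, h'⟩
  obtain ⟨π, hπ, hpπ⟩ := h2 P h1
  obtain ⟨l, hl, hπl, hc⟩ := Pool.Agent.Y715.T.Rec.exists_p (hP π hπ)
  have hpl : p = l := by
    have h3 : (p : ℤ) ∣ l := by
      rcases hc with h | h
      · rw [h] at hpπ
        exact hpπ
      · rw [h] at hpπ
        exact hpZ.dvd_of_dvd_pow hpπ
    exact (Nat.prime_dvd_prime_iff_eq hp hl).1 (by exact_mod_cast h3)
  have hπn : π ∣ (n : Ei) := by
    refine hπl.trans ?_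
    rw [← hpl]
    exact_mod_cast (Nat.cast_dvd_cast hpn : ((p : ℕ) : Ei) ∣ (n : Ei))
  apply Multiset.prod_eq_zero
  rw [Multiset.mem_map]
  exact ⟨π, hπ, loc_zero hπn⟩

/-- **(1)** Let an integer `A ≥ 0` and `δ > 0` be given. There are `κ₀ > 0` and `y₀` such that for all `Y ≥ y₀`, all `N`, all
families of pairs of residues `y_i`, `i ∈ s`, modulo any `q` with Fourier coefficients at most `|s| / (Z (42 + 3 log q) ^ 2)` at all
nonzero frequencies, where `N ≤ Z ≤ q`, and all pairs `c₀` of integers `≥ 0` the following holds.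

Let `Λ x` be for every `x` any set of at most `x ^ A` functions `w` on the integers with `|w (n)| ≤ 1`. Then for all `i ∈ s` with
the exception of at most a proportion `1 / Y ^ A` of them the Eisenstein integer `α = (c₀ 0 + y_i 0) + (c₀ 1 + y_i 1) ω` has, if
its norm is not divisible by `3`, the following property: for the Dirichlet character `ψ` modulo the norm of `α` which is the cubic
residue symbol of `α`, all integers `x` with `Y ≤ x ≤ N ^ κ₀`, all functions `w` from `Λ x`, all real `τ` with `|τ| ≤ x ^ A` and all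
`M < M' ≤ x` we have `|∑ w (n) ψ (n) n ^ (- i τ)| ≤ x ^ (1 / 2 + δ)`, where the sum runs over the integers `n` with `M < n ≤ M'`.

**(2)** Products: if the residues `y_j(t)`, `t ∈ s_j`, have Fourier coefficients at most `η |s_j|` for each coordinate `j`, then
the product family of vectors `(y_j(g_j))_j`, `g_j ∈ s_j`, has Fourier coefficients at most `η` times the number of its members.

**(3)** Families of residues modulo primes `p` with Fourier coefficients at most `|s| / K`, `K ≥ 1` arbitrary: the quotients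
`j / r` of the integers `0 ≤ j < S` by the primes `r ≤ R`, if `K log ^ 4 p ≤ R < p` and `R ^ 2 ≤ S` (and `p` is large); the cosets
of all subgroups of the multiplicative group of an order of at least `5 p ^ (3/8) K ^ 3`; the residues `a b + g(a) + k(b)`,
`a ∈ A`, `b ∈ B`, for arbitrary sets with `|A| |B| ≥ p K ^ 2` and arbitrary functions `g` and `k`.

**(4)** Polynomial curves: for `1 ≤ d ≤ D` there is `C` such that for all primes `p` and all integral polynomials `f_j` of
pairwise distinct degrees between `d` and `D` whose leading coefficients are not divisible by `p`, the vectors `(f_j(n))_j`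
modulo `p`, `0 ≤ n < x`, have Fourier coefficients at most `x / K` for all `K ≥ 1` with `C K ^ C ≤ p` and
`C K ^ C p ≤ x ^ d`. (So there are such families with only about `p ^ (1 / d)` members.) -/
theorem result :
    (∀ (δ : ℝ) (A : ℕ), 0 < δ → ∃ κ₀ : ℝ, 0 < κ₀ ∧ ∃ y₀ : ℕ, ∀ Y N : ℕ, y₀ ≤ Y →
      ∀ (κ : Type) (w : κ → ℕ → ℂ) (Λ : ℕ → Finset κ), (∀ i n, ‖w i n‖ ≤ 1) → (∀ x, (Λ x).card ≤ x ^ A) →
      ∀ (τ : Type) (q : ℕ) [NeZero q] (s : Finset τ) (y : τ → Fin 2 → ZMod q) (Z : ℝ), (N : ℝ) ≤ Z → Small q Z s y →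
      ∀ c₀ : Fin 2 → ℕ,
        ({i : τ | i ∈ s ∧ ¬ ShortSums δ A w Λ Y ((N : ℝ) ^ κ₀) (alpha y c₀ i)}.ncard : ℝ) ≤ 1 / (Y : ℝ) ^ A * s.card) ∧
    (∀ (ι : Type) [Fintype ι] [DecidableEq ι] (q : ℕ) [NeZero q] (η : ℝ) (τ : Type) (s : ι → Finset τ) (y : ι → τ → ZMod q),
      (∀ j, Flat1 q η (s j) (y j)) → Flat q η (Fintype.piFinset s) (fun g j => y j (g j))) ∧
    (∃ P₀ : ℕ, ∀ p : ℕ, P₀ ≤ p → ∀ [Fact p.Prime] (K : ℝ), 1 ≤ K →
      (∀ R S : ℕ, K * Real.log p ^ 4 ≤ R → R < p → R ^ 2 ≤ S →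
        Flat1 p (1 / K) (((Finset.Icc 1 R).filter Nat.Prime) ×ˢ Finset.range S)
          (fun z => ((z.2 : ℕ) : ZMod p) * ((z.1 : ℕ) : ZMod p)⁻¹)) ∧
      (∀ (H : Subgroup (ZMod p)ˣ) (s : Finset (ZMod p)ˣ), (∀ u, u ∈ s ↔ u ∈ H) →
        5 * (p : ℝ) ^ (3 / 8 : ℝ) * K ^ 3 ≤ s.card → ∀ x : ZMod p, x ≠ 0 → Flat1 p (1 / K) s (fun u => x * (u : ZMod p))) ∧
      (∀ (A B : Finset (ZMod p)) (g k : ZMod p → ZMod p), (p : ℝ) * K ^ 2 ≤ A.card * B.card →
        Flat1 p (1 / K) (A ×ˢ B) (fun z => z.1 * z.2 + g z.1 + k z.2))) ∧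
    (∀ d D : ℕ, 1 ≤ d → ∃ C : ℕ, ∀ (ι : Type) [Fintype ι] (p : ℕ) [Fact p.Prime] (f : ι → Polynomial ℤ),
      (∀ j, d ≤ (f j).natDegree ∧ (f j).natDegree ≤ D ∧ ¬ (p : ℤ) ∣ (f j).leadingCoeff) →
      Function.Injective (fun j => (f j).natDegree) → ∀ K : ℝ, 1 ≤ K → C * K ^ C ≤ p → ∀ x : ℕ,
      C * K ^ C * p ≤ (x : ℝ) ^ d → Flat p (1 / K) (Finset.range x) (fun n j => (((f j).eval (n : ℤ) : ℤ) : ZMod p))) := by
  refine ⟨fun δ A hδ => ?_, ⟨fun ι _ _ q _ η τ s y h => Pool.Agent.N384.VF.flat_pi q η s y h, ?_,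
    fun d D hd => Pool.Agent.N384.VF.flat_poly d D hd⟩⟩
  · classical
    have h3L : 3 ∣ 3 := dvd_rfl
    obtain ⟨κ₀, hκ₀, y₀, h⟩ := Pool.Agent.N384.VF.mt_vf 2 3 (by norm_num) δ hδ A (A + 4) A
    refine ⟨κ₀, hκ₀, y₀ + 3, fun Y N hy κ w Λ hw hΛ τ q _ s y Z hNZ hsm c₀ => ?_⟩
    refine h Y N (by omega) (κ × (ZMod 3 × ZMod 3)) (fun x => (Λ x) ×ˢ univ) ?_
      (fun x q n m => FF n (toE m)) ?_ (fun x q n => w q.1 n) (fun x q n => FF n (star (epz q.2.1 q.2.2))) (fun x q n => hw q.1 n) (fun x q n => FF_norm _ _)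
      (fun m => ShortSums δ A w Λ Y ((N : ℝ) ^ κ₀) (toE m)) ?_ τ q s y Z hNZ ⟨hsm.1, hsm.2⟩ c₀
    · intro x hx
      rw [card_product]
      have e1 : (univ : Finset (ZMod 3 × ZMod 3)).card = 9 := by decide
      rw [e1, pow_add]
      apply Nat.mul_le_mul (hΛ x)
      calc 9 ≤ 3 ^ 4 := by norm_num
        _ ≤ x ^ 4 := Nat.pow_le_pow_left (by omega) 4
    · intro x hx q _
      apply (fam _ x h3L).mono
      exact Real.one_le_rpow (by exact_mod_cast (by omega : 1 ≤ x)) (by positivity)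
    · intro m hm h3 ψ hψ x hyx hxr i hi τ hτ M M' hM'
      obtain ⟨P, hP, hPa, hPψ⟩ := hψ
      have hP3 : ∀ π ∈ P, ¬ π ∣ 3 := by
        intro π hπ
        refine not_three (fun h => h3 (h.trans (nr_dvd ?_))) (hP π hπ)
        exact (Multiset.dvd_prod hπ).trans hPa.dvd
      obtain ⟨χ, hχ⟩ : ∃ χ : ℕ → ℂ, χ = fun (n : ℕ) => (P.map (fun π => loc π (n : Ei))).prod := ⟨_, rfl⟩
      have hχψ : ∀ n : ℕ, ψ (n : ZMod (nm (toE m)).natAbs) = χ n := by
        intro n
        rw [hχ]
        show ψ (n : ZMod (nm (toE m)).natAbs) = (P.map (fun π => loc π (n : Ei))).prod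
        by_cases hn : n.Coprime (nm (toE m)).natAbs
        · rw [hPψ n hn]
          congr 1
          apply Multiset.map_congr rfl
          intro π hπ
          exact residue_eq (hP π hπ) (hP3 π hπ) n
        · rw [prod_zero (toE m) P hP hPa n hn]
          apply MulChar.map_nonunit
          rw [ZMod.isUnit_iff_coprime]
          exact hn
      have h5 := hm x hyx hxr (i, ((toE m).re : ZMod 3), ((toE m).im : ZMod 3)) (mem_product.2 ⟨hi, mem_univ _⟩) τ hτ χ ?_ ?_ ?_ M M' hM'
      · unfold shortSum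
        have e1 : ∑ n ∈ Ioc M M', w i n * ψ (n : ZMod (nm (toE m)).natAbs) * Complex.exp (((-(τ * Real.log n) : ℝ) : ℂ) * Complex.I) =
            ∑ n ∈ Ioc M M', w i n * χ n * Pool.Agent.X22.ND.hp τ n := by
          apply sum_congr rfl
          intro n _
          rw [hχψ n]
          rfl
        rw [e1]
        exact h5
      · intro n
        rw [← hχψ n]
        exact DirichletCharacter.norm_le_one ψ _
      · intro n n' _ _
        rw [← hχψ, ← hχψ, ← hχψ, Nat.cast_mul, map_mul]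
      · intro n hn
        rw [mem_nn] at hn
        have hn3 : ¬ 3 ∣ n := fun h => Nat.not_coprime_of_dvd_of_dvd (by norm_num : 1 < 3) h h3L hn.2
        rw [hχ]
        exact recip (by omega) hn3 (toE m) h3 P hP hPa
  · obtain ⟨P₀, h0⟩ := Pool.Agent.N384.MQ.flatK_quot
    exact ⟨P₀, fun p hp _ K hK => ⟨fun R S => h0 p hp K hK R S,
      fun H s hs hc x hx => Pool.Agent.N384.MQ.flatK_coset p H s hs K hK hc x hx,
      fun A B g k hAB => Pool.Agent.N384.MQ.flatK_prod p A B g k K hK hAB⟩⟩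

end Pool.Agent.Results.MP_081200_nt.ResidueVectors
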